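import Pool.Agent.E8helper61.EF.Stm3

/-!
# Project EF, part FREE
-/

set_option autoImplicit false

open Finset

namespace Pool.Agent.E8helper91.EF

open Pool.Agent.E8helper61.EF

theorem split {ι α : Type} [DecidableEq ι] [DecidableEq α] (s : ι → ℕ) (S : Finset ι) :
    ∀ Fr : Finset α, Fr.card ≤ ∑ j ∈ S, s j → ∃ Y : ι → Finset α, (∀ j ∈ S, (Y j).card ≤ s j) ∧
      S.biUnion Y = Fr ∧ ∑ j ∈ S, (Y j).card = Fr.card := by
  induction S using Finset.induction_on with
  | empty =>
    intro Fr h
    rw [Finset.sum_empty, Nat.le_zero, Finset.card_eq_zero] at h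
    subst h
    exact ⟨fun _ => ∅, by simp, by simp, by simp⟩
  | insert a S ha ih =>
    intro Fr h
    rw [Finset.sum_insert ha] at h
    obtain ⟨Z, hZ, hZc⟩ := Finset.exists_subset_card_eq (s := Fr) (n := min (s a) Fr.card)
      (min_le_right _ _)
    have h1 : (Fr \ Z).card = Fr.card - min (s a) Fr.card := by
      rw [Finset.card_sdiff_of_subset hZ, hZc]
    obtain ⟨Y, hY1, hY2, hY3⟩ := ih (Fr \ Z) (by rw [h1]; omega)
    have hne : ∀ j ∈ S, j ≠ a := fun j hj h => ha (h ▸ hj)
    refine ⟨Function.update Y a Z, ?_, ?_, ?_⟩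
    · intro j hj
      rcases Finset.mem_insert.1 hj with rfl | hj
      · rw [Function.update_self, hZc]
        exact min_le_left _ _
      · rw [Function.update_of_ne (hne j hj)]
        exact hY1 j hj
    · rw [Finset.biUnion_insert, Function.update_self]
      have h2 : S.biUnion (Function.update Y a Z) = S.biUnion Y :=
        Finset.biUnion_congr rfl fun j hj => Function.update_of_ne (hne j hj) _ _
      rw [h2, hY2, Finset.union_sdiff_of_subset hZ]
    · rw [Finset.sum_insert ha, Function.update_self]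
      have h2 : ∑ j ∈ S, (Function.update Y a Z j).card = ∑ j ∈ S, (Y j).card :=
        Finset.sum_congr rfl fun j hj => by rw [Function.update_of_ne (hne j hj)]
      rw [h2, hY3, h1, hZc]
      have := min_le_right (s a) Fr.card
      omega

theorem free : FreeStatement := by
  intro hM n k d A hk hdn hDn hS hKU f hf
  by_contra hcon
  rw [not_le] at hcon
  obtain ⟨U, hU⟩ : ∃ U, U = univ.biUnion (fun j => near d (f j)) := ⟨_, rfl⟩
  rw [← hU] at hcon
  let D : Finset (Fin n) := univ.filter (fun x => x.val < d)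
  have hDm : ∀ x : Fin n, x ∈ D ↔ x.val < d := fun x => by simp [D]
  have hDc : D.card = d := by
    have h1 : D.image Fin.val = range d := by
      ext m
      rw [Finset.mem_image, Finset.mem_range]
      constructor
      · rintro ⟨x, hx, rfl⟩
        exact (hDm x).1 hx
      · intro hm
        exact ⟨⟨m, by omega⟩, (hDm _).2 hm, rfl⟩
    have h2 := Finset.card_image_of_injective D Fin.val_injective
    rw [h1, Finset.card_range] at h2
    exact h2.symm
  have hUD : U ⊆ D := by
    intro x hx
    rw [hU, Finset.mem_biUnion] at hx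
    obtain ⟨j, -, hj⟩ := hx
    exact (hDm x).2 (Finset.mem_filter.1 hj).2
  have hUc : U.card ≤ d := by
    rw [← hDc]
    exact Finset.card_le_card hUD
  have hFc : (D \ U).card = d - U.card := by
    rw [Finset.card_sdiff_of_subset hUD, hDc]
  obtain ⟨Y, hY1, hY2, hY3⟩ := split (fun j => (far d (f j)).card) univ (D \ U)
    (by rw [hFc]; omega)
  have hX : ∀ j, ∃ X ⊆ far d (f j), X.card = (Y j).card := fun j =>
    Finset.exists_subset_card_eq (hY1 j (Finset.mem_univ j))
  choose X hX1 hX2 using hX
  have hYF : ∀ j, ∀ y ∈ Y j, y ∈ D ∧ y ∉ U := by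
    intro j y hy
    have h1 : y ∈ D \ U := by
      rw [← hY2]
      exact Finset.mem_biUnion.2 ⟨j, Finset.mem_univ j, hy⟩
    exact Finset.mem_sdiff.1 h1
  have hg : ∀ j, (f j \ X j) ∪ Y j ∈ A := by
    intro j
    refine hM n A hDn hS (f j) (hf j) (X j) (Y j) ?_ (hX2 j).ge ?_ ?_
    · exact (hX1 j).trans (Finset.filter_subset _ _)
    · rw [Finset.disjoint_left]
      intro y hy hy2
      obtain ⟨h1, h2⟩ := hYF j y hy
      apply h2
      rw [hU]
      exact Finset.mem_biUnion.2 ⟨j, Finset.mem_univ j,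
        Finset.mem_filter.2 ⟨(Finset.mem_sdiff.1 hy2).1, (hDm y).1 h1⟩⟩
    · intro y hy x hx
      have h1 := (hDm y).1 (hYF j y hy).1
      have h2 := (Finset.mem_filter.1 (hX1 j hx)).2
      change y.val < x.val
      omega
  have hle := hKU (fun j => (f j \ X j) ∪ Y j) hg
  -- a far element remains
  have hlt : ∑ j, (X j).card < ∑ j, (far d (f j)).card := by
    have e : ∑ j, (X j).card = (D \ U).card := by
      rw [← hY3]
      exact Finset.sum_congr rfl fun j _ => hX2 j
    rw [e, hFc]
    omega
  obtain ⟨j, -, hj⟩ := Finset.exists_lt_of_sum_lt hlt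
  obtain ⟨x, hx, hxX⟩ := Finset.exists_mem_notMem_of_card_lt_card hj
  have hxf := Finset.mem_filter.1 hx
  have hxD : x ∉ D := by
    rw [hDm]
    omega
  have hsub : insert x D ⊆ univ.biUnion (fun j => (f j \ X j) ∪ Y j) := by
    intro z hz
    rcases Finset.mem_insert.1 hz with rfl | hz
    · exact Finset.mem_biUnion.2 ⟨j, Finset.mem_univ j, Finset.mem_union_left _
        (Finset.mem_sdiff.2 ⟨hxf.1, hxX⟩)⟩
    · by_cases hzU : z ∈ U
      · rw [hU, Finset.mem_biUnion] at hzU
        obtain ⟨i, -, hi⟩ := hzU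
        have hi' := Finset.mem_filter.1 hi
        refine Finset.mem_biUnion.2 ⟨i, Finset.mem_univ i, Finset.mem_union_left _
          (Finset.mem_sdiff.2 ⟨hi'.1, fun h => ?_⟩)⟩
        have h2 := (Finset.mem_filter.1 (hX1 i h)).2
        omega
      · have h1 : z ∈ univ.biUnion Y := by
          rw [hY2]
          exact Finset.mem_sdiff.2 ⟨hz, hzU⟩
        obtain ⟨i, -, hi⟩ := Finset.mem_biUnion.1 h1
        exact Finset.mem_biUnion.2 ⟨i, Finset.mem_univ i, Finset.mem_union_right _ hi⟩
  have hc := Finset.card_le_card hsub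
  rw [Finset.card_insert_of_notMem hxD, hDc] at hc
  omega

end Pool.Agent.E8helper91.EF
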